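import Pool.Agent.V11302.MC.Impl
import Pool.Agent.H807R2.Dav5
import Pool.Agent.H705R2.MLogF

/-!
# Möbius disjointness for automorphisms of algebras of compact operators

Let `A` be a C*-algebra with a faithful representation `π` on a Hilbert space `H` and let `α` be an
automorphism of `A`. Assume that `α` is implemented by a unitary operator of `H`, or that `π(A)` contains
all compact operators (then `α` is automatically implemented). Assume also that `A` is the closed linear
span of the elements `a` such that `π(a)` is compact and of the eigenvectors of `α`. Then the averages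
`(1/N) ∑_{n ≤ N} μ(n) αⁿ(a)` tend to zero IN NORM for every `a` in `A`. In particular
`(1/N) ∑_{n ≤ N} μ(n) ρ(αⁿ(a))` tends to zero for every state `ρ`. This holds for example for all automorphisms
of the algebra of all compact operators of a Hilbert space (of any dimension), for all automorphisms of all
C*-algebras of compact operators (in the representation of multiplicity one every automorphism is
implemented) and for the gauge automorphisms of the Toeplitz algebra. No assumption is made on the entropy
of `α`.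

The proof uses the theorem of Davenport, proved in the library, and the continuous functional calculus for
unitary operators, applied twice: for rank one operators `⟨y, ·⟩ x` the norm of the sum
`∑ μ(n) Uⁿ (⟨y, ·⟩ x) U⁻ⁿ` is at most `‖x‖ ‖y‖` times the supremum over `θ` of `|∑ μ(n) e(nθ)|`.
-/

set_option autoImplicit false

namespace Pool.Agent.Results.MP_7a8f48_an.CompactOperators

open Filter Topology

section defs

variable {A : Type*} [NonUnitalCStarAlgebra A] {H : Type*} [NormedAddCommGroup H]
  [InnerProductSpace ℂ H] [CompleteSpace H]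

/-- the averages `(1/N) ∑_{n=1}^N μ(n) αⁿ(a)` -/
noncomputable def average (α : A ≃⋆ₐ[ℂ] A) (a : A) (N : ℕ) : A :=
  (N : ℂ)⁻¹ • ∑ n ∈ Finset.Icc 1 N, ((ArithmeticFunction.moebius n : ℤ) : ℂ) • α^[n] a

/-- the automorphism `α` is implemented by a unitary operator in the representation `π` -/
def Implemented (π : A →⋆ₙₐ[ℂ] (H →L[ℂ] H)) (α : A ≃⋆ₐ[ℂ] A) : Prop :=
  ∃ U : unitary (H →L[ℂ] H), ∀ a, π (α a) = (U : H →L[ℂ] H) * π a * star (U : H →L[ℂ] H)

/-- the image of `π` contains all compact operators -/
def ContainsCompact (π : A →⋆ₙₐ[ℂ] (H →L[ℂ] H)) : Prop :=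
  ∀ k : H →L[ℂ] H, IsCompactOperator k → ∃ a, π a = k

/-- the closed linear span of the elements whose image under `π` is compact and of the eigenvectors of `α`
(with eigenvalues of absolute value one) -/
def CompactAndEigen (π : A →⋆ₙₐ[ℂ] (H →L[ℂ] H)) (α : A ≃⋆ₐ[ℂ] A) : Set A :=
  closure (Submodule.span ℂ
    ({a : A | IsCompactOperator (π a)} ∪ {a : A | ∃ l : ℂ, ‖l‖ = 1 ∧ α a = l • a}) : Submodule ℂ A)

end defs

theorem rk_compact {H : Type*} [NormedAddCommGroup H] [InnerProductSpace ℂ H] [CompleteSpace H]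
    (x y : H) : IsCompactOperator (Pool.Agent.V11302.MC.rk x y) := by
  have h1 : IsCompactOperator (innerSL ℂ y : H →L[ℂ] ℂ) :=
    isCompactOperator_of_locallyCompactSpace_dom (innerSL ℂ y : H →L[ℂ] ℂ)
  have h2 := h1.clm_comp (ContinuousLinearMap.toSpanSingleton ℂ x)
  have h3 : (Pool.Agent.V11302.MC.rk x y : H → H) =
      (ContinuousLinearMap.toSpanSingleton ℂ x) ∘ (innerSL ℂ y : H →L[ℂ] ℂ) := by
    funext a
    simp [Pool.Agent.V11302.MC.rk_apply]
  rw [h3]
  exact h2

/-- **Main result.** -/
theorem result {A : Type*} [NonUnitalCStarAlgebra A] {H : Type*} [NormedAddCommGroup H]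
    [InnerProductSpace ℂ H] [CompleteSpace H] (π : A →⋆ₙₐ[ℂ] (H →L[ℂ] H))
    (hπ : Function.Injective π) (α : A ≃⋆ₐ[ℂ] A) (hα : Implemented π α ∨ ContainsCompact π)
    (hA : ∀ a, a ∈ CompactAndEigen π α) (a : A) :
    Tendsto (average α a) atTop (𝓝 0) := by
  have hD : Pool.Agent.H807R2.Davenport :=
    Pool.Agent.H807R2.davenport_of Pool.Agent.H705R2.MSW.swMu
  obtain ⟨U, hU⟩ : Implemented π α := by
    rcases hα with h | h
    · exact h
    · exact Pool.Agent.V11302.MC.exists_unitary π hπ α fun x y => h _ (rk_compact x y)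
  have hpow : ∀ (n : ℕ) (b : A), π (α^[n] b) =
      (U : H →L[ℂ] H) ^ n * π b * (star (U : H →L[ℂ] H)) ^ n := by
    intro n
    induction n with
    | zero => intro b; simp
    | succ n ih =>
      intro b
      rw [Function.iterate_succ_apply, ih, hU, pow_succ, pow_succ']
      simp only [mul_assoc]
  -- every element is good
  have hgood : ∀ b : A, Pool.Agent.V11302.MC.GoodU U (π b) := by
    intro b
    have h1 : π b ∈ closure (π '' ((Submodule.span ℂ
        ({a : A | IsCompactOperator (π a)} ∪ {a : A | ∃ l : ℂ, ‖l‖ = 1 ∧ α a = l • a}) :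
          Submodule ℂ A) : Set A)) := by
      have hc : Continuous π := (NonUnitalStarAlgHom.isometry π hπ).continuous
      exact image_closure_subset_closure_image hc ⟨b, hA b, rfl⟩
    refine Pool.Agent.V11302.MC.good_closure ?_ h1
    rintro _ ⟨c, hc, rfl⟩
    have hc' : c ∈ Submodule.span ℂ
        ({a : A | IsCompactOperator (π a)} ∪ {a : A | ∃ l : ℂ, ‖l‖ = 1 ∧ α a = l • a}) := hc
    clear hc
    induction hc' using Submodule.span_induction with
    | mem x hx =>
      rcases hx with hx | ⟨l, hl, hx⟩
      · intro ε hε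
        obtain ⟨N0, h⟩ := Pool.Agent.V11302.MC.compact_good hD (π x) hx ε hε
        exact ⟨N0, fun N hN => h N hN U (star U)⟩
      · refine Pool.Agent.V11302.MC.good_eigen hD hl ?_
        rw [← hU, hx, map_smul]
    | zero =>
      intro ε hε
      refine ⟨0, fun N _ => ?_⟩
      simp only [map_zero, mul_zero, zero_mul, smul_zero, Finset.sum_const_zero, norm_zero]
      positivity
    | add x y _ _ hx hy => rw [map_add]; exact Pool.Agent.V11302.MC.good_add hx hy
    | smul c x _ hx => rw [map_smul]; exact Pool.Agent.V11302.MC.good_smul c hx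
  rw [Metric.tendsto_atTop]
  intro ε hε
  obtain ⟨N0, hN0⟩ := hgood a (ε / 4) (by positivity)
  refine ⟨max N0 1, fun N hN => ?_⟩
  have h1 : 1 ≤ N := (le_max_right _ _).trans hN
  have h2 := hN0 (N + 1) (((le_max_left _ _).trans hN).trans (Nat.le_succ N))
  have h3 : ∑ n ∈ Finset.range (N + 1), Pool.Agent.V11302.MC.mb n •
      ((U : H →L[ℂ] H) ^ n * π a * (star (U : H →L[ℂ] H)) ^ n) =
      π (∑ n ∈ Finset.Icc 1 N, ((ArithmeticFunction.moebius n : ℤ) : ℂ) • α^[n] a) := by
    rw [map_sum, Finset.range_eq_Ico, Finset.sum_eq_sum_Ico_succ_bot (Nat.succ_pos N)]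
    have h4 : Pool.Agent.V11302.MC.mb 0 = 0 := by simp [Pool.Agent.V11302.MC.mb]
    rw [h4, zero_smul, zero_add]
    refine Finset.sum_congr (by ext n; simp) fun n _ => ?_
    rw [map_smul, hpow]
    rfl
  rw [h3, NonUnitalStarAlgHom.norm_map π hπ] at h2
  rw [dist_zero_right, average, norm_smul, norm_inv, Complex.norm_natCast]
  have hN' : (0 : ℝ) < N := by exact_mod_cast h1
  have h5 : ((N + 1 : ℕ) : ℝ) ≤ 2 * N := by
    push_cast
    have : (1 : ℝ) ≤ N := by exact_mod_cast h1
    linarith
  calc (N : ℝ)⁻¹ * _ ≤ (N : ℝ)⁻¹ * (ε / 4 * ((N + 1 : ℕ) : ℝ)) := by gcongr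
    _ ≤ (N : ℝ)⁻¹ * (ε / 4 * (2 * N)) := by gcongr
    _ = ε / 2 := by field_simp; ring
    _ < ε := by linarith

end Pool.Agent.Results.MP_7a8f48_an.CompactOperators
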